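import Pool.Agent.H3.S2.TgQ
import Pool.Agent.H62.HIL.Eig

/-!
# MP_70ba79_ag, THEOREM S, part 2: row RDB: the curve `G = 0` is reduced
-/

set_option autoImplicit false

namespace Pool.Agent.H78.S2

open MvPolynomial SC Pool.Agent.H27.LV
open Pool.Agent.H84.SM (dp cr dt)
open Pool.Agent.H92.SF
open Pool.Agent.H3.SF Pool.Agent.H3.S2
open Pool.Agent.H84.SF (Cor SYd Cone Tng)
open Pool.Agent.H17.SD (HRel)

/-- a homogeneous polynomial of degree 1 is a linear form -/
theorem lin_form {k σ : Type} [Field k] [Fintype σ] {U : MvPolynomial σ k}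
    (hU : U.IsHomogeneous 1) : U = ∑ s, C (coeff (Finsupp.single s 1) U) * X s := by
  classical
  ext m
  rw [coeff_sum]
  simp only [coeff_C_mul, coeff_X]
  by_cases hm : ∃ s, Finsupp.single s 1 = m
  · obtain ⟨s, rfl⟩ := hm
    rw [Finset.sum_eq_single s]
    · simp
    · intro b _ hb
      rw [if_neg, mul_zero]
      intro h
      exact hb (Finsupp.single_left_injective one_ne_zero h)
    · intro h
      exact absurd (Finset.mem_univ s) h
  · rw [Finset.sum_eq_zero]
    · by_contra h
      have h1 := hU h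
      rw [Finsupp.weight_apply] at h1
      apply hm
      have h2 : m.degree = 1 := by
        rw [Finsupp.degree_eq_weight_one]
        exact hU h
      have h3 : m ∈ Set.range (fun a : σ => Finsupp.single a 1) := by
        rw [Finsupp.range_single_one]
        exact h2
      exact h3
    · intro s _
      rw [if_neg (fun h => hm ⟨s, h⟩), mul_zero]

/-- linear forms which are divisible by a prime element are proportional -/
theorem lin_prop {k σ : Type} [Field k] [Fintype σ] {g : MvPolynomial σ k} (hg : Prime g)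
    {l l' : MvPolynomial σ k} (hl : l.IsHomogeneous 1) (hl' : l'.IsHomogeneous 1) (h0 : l ≠ 0)
    (h1 : g ∣ l) (h2 : g ∣ l') : ∃ t : k, l' = C t * l := by
  obtain ⟨p, hp⟩ := h1
  obtain ⟨q, hq⟩ := h2
  by_cases h0' : l' = 0
  · exact ⟨0, by rw [h0', C_0, zero_mul]⟩
  have hp0 : p ≠ 0 := by
    rintro rfl
    exact h0 (by rw [hp, mul_zero])
  have hq0 : q ≠ 0 := by
    rintro rfl
    exact h0' (by rw [hq, mul_zero])
  have d1 : g.totalDegree + p.totalDegree = 1 := by
    rw [← totalDegree_mul_of_isDomain hg.ne_zero hp0, ← hp]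
    exact hl.totalDegree h0
  have d2 : g.totalDegree + q.totalDegree = 1 := by
    rw [← totalDegree_mul_of_isDomain hg.ne_zero hq0, ← hq]
    exact hl'.totalDegree h0'
  have d3 : g.totalDegree ≠ 0 := by
    intro h
    have h3 := totalDegree_eq_zero_iff_eq_C.1 h
    apply hg.not_isUnit
    rw [h3]
    refine (isUnit_iff_ne_zero.2 fun h4 => hg.ne_zero ?_).map C
    rw [h3, h4, C_0]
  have e1 := totalDegree_eq_zero_iff_eq_C.1 (show p.totalDegree = 0 by omega)
  have e2 := totalDegree_eq_zero_iff_eq_C.1 (show q.totalDegree = 0 by omega)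
  have hc : coeff 0 p ≠ 0 := by
    intro h
    apply hp0
    rw [e1, h, C_0]
  refine ⟨coeff 0 q * (coeff 0 p)⁻¹, ?_⟩
  rw [hp, hq]
  generalize hP : coeff 0 p = P at *
  generalize hQ : coeff 0 q = Q at *
  rw [e1, e2, C_mul]
  have : C P⁻¹ * (C P : MvPolynomial σ k) = 1 := by
    rw [← C_mul, inv_mul_cancel₀ hc, C_1]
  calc g * C Q = g * C Q * 1 := by ring
    _ = g * C Q * (C P⁻¹ * C P) := by rw [this]
    _ = _ := by ring

/-- not all linear forms in a plane are divisible by a prime element -/
theorem no_plane {k : Type} [Field k] {g : MvPolynomial (Fin 3) k} (hg : Prime g) (c : Fin 3 → k)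
    (h : ∀ d : Fin 3 → k, ∑ l, d l * c l = 0 → g ∣ ∑ l, C (d l) * X l) : False := by
  have hhom : ∀ d : Fin 3 → k, (∑ l, C (d l) * X l : MvPolynomial (Fin 3) k).IsHomogeneous 1 := by
    intro d
    refine IsHomogeneous.sum _ _ _ fun l _ => ?_
    exact (isHomogeneous_C_mul_X _ _)
  have hco : ∀ (d : Fin 3 → k) (i : Fin 3),
      coeff (Finsupp.single i 1) (∑ l, C (d l) * X l : MvPolynomial (Fin 3) k) = d i := by
    intro d i
    rw [coeff_sum, Finset.sum_eq_single i]
    · rw [coeff_C_mul, coeff_X, if_pos rfl, mul_one]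
    · intro b _ hb
      rw [coeff_C_mul, coeff_X, if_neg, mul_zero]
      intro h
      exact hb (Finsupp.single_left_injective one_ne_zero h)
    · intro h
      exact absurd (Finset.mem_univ i) h
  have key : ∀ d d' : Fin 3 → k, ∑ l, d l * c l = 0 → ∑ l, d' l * c l = 0 →
      ∀ i j : Fin 3, d i ≠ 0 → d' i = 0 → d' j = 0 := by
    intro d d' h1 h2 i j hi hi'
    have h3 : (∑ l, C (d l) * X l : MvPolynomial (Fin 3) k) ≠ 0 := by
      intro h4
      apply hi
      rw [← hco d i, h4, coeff_zero]
    obtain ⟨t, ht⟩ := lin_prop hg (hhom d) (hhom d') h3 (h d h1) (h d' h2)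
    have h4 := congrArg (coeff (Finsupp.single i 1)) ht
    rw [coeff_C_mul, hco, hco, hi'] at h4
    have ht0 : t = 0 := by
      rcases mul_eq_zero.1 h4.symm with h5 | h5
      · exact h5
      · exact absurd h5 hi
    have h6 := congrArg (coeff (Finsupp.single j 1)) ht
    rw [coeff_C_mul, hco, ht0, zero_mul] at h6
    exact h6
  by_cases h0 : c 0 = 0
  · by_cases h1 : c 1 = 0
    · exact one_ne_zero (key ![1, 0, 0] ![0, 1, 0] (by simp [Fin.sum_univ_three, h0])
        (by simp [Fin.sum_univ_three, h1]) 0 1 (by simp) (by simp))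
    · have := key ![c 1, 0, 0] ![0, - c 2, c 1] (by simp [Fin.sum_univ_three, h0])
        (by simp [Fin.sum_univ_three]; ring) 0 2 (by simpa using h1) (by simp)
      exact h1 (by simpa using this)
  · have := key ![- c 1, c 0, 0] ![- c 2, 0, c 0] (by simp [Fin.sum_univ_three]; ring)
      (by simp [Fin.sum_univ_three]; ring) 1 2 (by simpa using h0) (by simp)
    exact h0 (by simpa using this)


section

variable {k F σ : Type} [Field k] [IsAlgClosed k] [CharZero k] [Field F] [Algebra k F]
  [Fintype σ] [DecidableEq σ] {X : σ → F} {u : Fin 3 → F} {dd : Fin 3 → Derivation k F F}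
  {δ j0 c0 m : ℕ} {J : MvPolynomial (Fin 3) k} {G : MvPolynomial σ k}

omit [Fintype σ] [DecidableEq σ] [IsAlgClosed k] [CharZero k] in
theorem syd (hS : Sfc u dd δ j0 c0 J) (hX : Cor X u dd J) : SYd X u dd J j0 :=
  ⟨hS.ind, hS.du, hS.comm, hX.ulin, hX.Xint, hX.Xeu, hS.Jh, hS.J0, hX.JI, fun a l => hS.Jd l a⟩

omit [IsAlgClosed k] [CharZero k] in
theorem hd (hS : Sfc u dd δ j0 c0 J) : Hd k u (eu u dd) δ := by
  refine ⟨hS.ind, hS.rank, hS.pos, fun i => ?_⟩
  have h : eu u dd (u i) = ∑ l, u l * dd l (u i) := by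
    unfold eu
    rw [Fin.sum_univ_three, Fin.sum_univ_three]
    simp [Derivation.add_apply, Derivation.smul_apply, smul_eq_mul]
  rw [h]
  simp only [hS.du]
  rw [Finset.sum_eq_single i]
  · simp
  · intro b _ hb
    rw [if_neg hb, mul_zero]
  · intro h
    exact absurd (Finset.mem_univ i) h

omit [Fintype σ] [DecidableEq σ] [IsAlgClosed k] [CharZero k] in
theorem itg_val (hX : Cor X u dd J) (q : MvPolynomial σ k) : Itg k u (aeval X q) := by
  have h : aeval X q ∈ Bb k u := by
    induction q using MvPolynomial.induction_on with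
    | C a =>
      rw [algHom_C]
      exact (Bb k u).algebraMap_mem a
    | add p q hp hq =>
      rw [map_add]
      exact (Bb k u).add_mem hp hq
    | mul_X p i hp =>
      rw [map_mul, aeval_X]
      exact (Bb k u).mul_mem hp (hX.Xint i)
  exact h

omit [Fintype σ] [DecidableEq σ] [IsAlgClosed k] [CharZero k] in
theorem itg_u (q : MvPolynomial (Fin 3) k) : Itg k u (aeval u q) :=
  (((aeval u : MvPolynomial (Fin 3) k →ₐ[k] F) : MvPolynomial (Fin 3) k →+* F)).isIntegralElem_map
    (x := q)

omit [IsAlgClosed k] [CharZero k] [DecidableEq σ] in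
theorem card_ge (hS : Sfc u dd δ j0 c0 J) (hX : Cor X u dd J) : 3 ≤ Fintype.card σ := by
  choose U hU1 hU using hX.ulin
  have hli : LinearIndependent k u := hS.ind.linearIndependent
  have hr : ∀ l, u l ∈ Submodule.span k (Set.range X) := by
    intro l
    rw [← hU l, lin_form (hU1 l), map_sum]
    refine Submodule.sum_mem _ fun s _ => ?_
    rw [map_mul, algHom_C, aeval_X, ← Algebra.smul_def]
    exact Submodule.smul_mem _ _ (Submodule.subset_span ⟨s, rfl⟩)
  have : Module.Finite k (Submodule.span k (Set.range X)) :=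
    Module.Finite.span_of_finite k (Set.finite_range X)
  have h1 := finrank_range_le_card (R := k) X
  have h2 : Fintype.card (Fin 3) ≤ Module.finrank k (Submodule.span k (Set.range X)) := by
    have h3 : LinearIndependent k (fun l => (⟨u l, hr l⟩ : Submodule.span k (Set.range X))) := by
      apply LinearIndependent.of_comp (Submodule.subtype _)
      exact hli
    exact h3.fintype_card_le_finrank
  rw [Fintype.card_fin] at h2
  exact h2.trans h1

omit [IsAlgClosed k] [CharZero k] [DecidableEq σ] in
theorem tng_le (s : σ → k) (h : SmP X G s) : Module.finrank k (Tng X s G) ≤ 2 := by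
  by_contra h1
  have h2 : 3 ≤ Module.finrank k (Tng X s G) := by omega
  set b := Module.finBasis k (Tng X s G) with hb
  refine h (fun i => ((b (Fin.castLE h2 i) : Tng X s G) : σ → k)) ?_ ?_
  · rintro i f (hf | rfl)
    · exact (b (Fin.castLE h2 i)).2.1 f hf
    · exact (b (Fin.castLE h2 i)).2.2
  · have h3 : LinearIndependent k (fun i : Fin 3 => b (Fin.castLE h2 i)) :=
      b.linearIndependent.comp _ (Fin.castLE_injective h2)
    exact h3.map' (Submodule.subtype _) (Submodule.ker_subtype _)

theorem pf_RDB (hGMX : Pool.Agent.H17.SD.T_GMX) (hNKD : T_NKD) (hRDA : T_RDA) (hNGD : T_NGD)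
    (hNDV : T_NDV) (hSAT : T_SAT) (hCHM : Pool.Agent.H84.SF.T_CHM) : T_RDB := by
  classical
  intro k F σ _ _ _ _ _ _ _ X u dd δ j0 c0 J hS hX htr hHR m G hm hG hG0 hN a t ha hat haG
  by_contra hz
  set z : F := a / aeval X G with hzdef
  have hHd := hd hS
  have hGI : Itg k u (aeval X G) := itg_val hX G
  have hXH : ∀ i, Hm k (eu u dd) 1 (X i) := by
    intro i
    unfold Hm
    rw [hX.Xeu i]
    push_cast
    rw [one_mul]
  have hGH : Hm k (eu u dd) m (aeval X G) := Pool.Agent.H62.HIL.hm_aeval hXH hG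
  have hGz : aeval X G * z = a := by
    rw [hzdef, mul_div_cancel₀ _ hG0]
  -- the two ring homomorphisms
  have hul : ∀ l, u l ∈ Bb k u := by
    intro l
    have h := itg_u (u := u) (MvPolynomial.X l : MvPolynomial (Fin 3) k)
    rw [aeval_X] at h
    exact h
  let ψ : MvPolynomial (Fin 3) k →ₐ[k] Bb k u :=
    aeval (fun l => (⟨u l, hul l⟩ : Bb k u))
  let χ : MvPolynomial σ k →ₐ[k] Bb k u := aeval (fun i => (⟨X i, hX.Xint i⟩ : Bb k u))
  have hψ : ∀ p, ((ψ p : Bb k u) : F) = aeval u p := by
    intro p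
    have h : (Bb k u).val.comp ψ = aeval u := by
      refine MvPolynomial.algHom_ext fun l => ?_
      simp [ψ]
    exact DFunLike.congr_fun h p
  have hχ : ∀ p, ((χ p : Bb k u) : F) = aeval X p := by
    intro p
    have h : (Bb k u).val.comp χ = aeval X := by
      refine MvPolynomial.algHom_ext fun l => ?_
      simp [χ]
    exact DFunLike.congr_fun h p
  let I : Ideal (Bb k u) :=
    { carrier := {h | Itg k u ((h : F) * z)}
      add_mem' := by
        intro x y hx hy
        have : ((x + y : Bb k u) : F) * z = (x : F) * z + (y : F) * z := by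
          push_cast; ring
        change Itg k u _
        rw [this]
        exact (Bb k u).add_mem hx hy
      zero_mem' := by
        change Itg k u _
        rw [ZeroMemClass.coe_zero, zero_mul]
        exact (Bb k u).zero_mem
      smul_mem' := by
        intro c x hx
        have : ((c • x : Bb k u) : F) * z = (c : F) * ((x : F) * z) := by
          rw [smul_eq_mul]; push_cast; ring
        change Itg k u _
        rw [this]
        exact (Bb k u).mul_mem c.2 hx }
  have hI : ∀ h : Bb k u, h ∈ I ↔ Itg k u ((h : F) * z) := fun h => Iff.rfl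
  -- the norm of `G`
  obtain ⟨N, hNh, hNn, hN0⟩ := (hNGD k F 3 δ u (eu u dd) hHd).2 m (aeval X G) hGI hGH
  have hN0 := hN0 hG0
  have hNI : Itg k u (aeval u N * z) := by
    have h1 : Itg k u (aeval u N / aeval X G) := by
      rw [← hNn]
      exact hNDV k F 3 δ u (eu u dd) hHd (aeval X G) hG0 hGI
    have h2 : aeval u N * z = a * (aeval u N / aeval X G) := by rw [hzdef]; ring
    rw [h2]
    exact (Bb k u).mul_mem ha h1
  obtain ⟨fs, hfs, hfN⟩ := UniqueFactorizationMonoid.exists_prime_factors N hN0
  -- prime avoidance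
  have hav : ((I.comap ψ : Ideal (MvPolynomial (Fin 3) k)) : Set (MvPolynomial (Fin 3) k)) ⊆
      ⋃ g ∈ (fs.toFinset : Set (MvPolynomial (Fin 3) k)),
        ((Ideal.span {g} : Ideal (MvPolynomial (Fin 3) k)) : Set (MvPolynomial (Fin 3) k)) := by
    intro p hp
    have hp1 : Itg k u (aeval u p * z) := by
      rw [← hψ]
      exact hp
    by_contra hcon
    have hnd : ∀ g ∈ fs, ¬ g ∣ p := by
      intro g hg hgp
      apply hcon
      rw [Set.mem_iUnion₂]
      exact ⟨g, by simpa using hg, Ideal.mem_span_singleton.2 hgp⟩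
    apply hz
    refine hSAT k F 3 u hS.ind p N ?_ z hp1 hNI
    have h1 : IsRelPrime p fs.prod := by
      have : ∀ s : Multiset (MvPolynomial (Fin 3) k), (∀ g ∈ s, Prime g ∧ ¬ g ∣ p) →
          IsRelPrime p s.prod := by
        intro s
        induction s using Multiset.induction_on with
        | empty =>
          intro _
          rw [Multiset.prod_zero]
          exact isRelPrime_one_right
        | cons g s ih =>
          intro h
          rw [Multiset.prod_cons]
          refine IsRelPrime.mul_right ?_ (ih fun g' hg' => h g' (Multiset.mem_cons_of_mem hg'))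
          obtain ⟨h2, h3⟩ := h g (Multiset.mem_cons_self _ _)
          exact ((h2.irreducible.isRelPrime_iff_not_dvd).2 h3).symm
      exact this fs fun g hg => ⟨hfs g hg, hnd g hg⟩
    have h2 := h1
    obtain ⟨c, hc⟩ := hfN
    rw [← hc]
    exact h2.mul_right c.isUnit.isRelPrime_right
  rw [Ideal.subset_union_prime 0 0 (fun g hg _ _ => by
    rw [Ideal.span_singleton_prime (hfs g (by simpa using hg)).ne_zero]
    exact hfs g (by simpa using hg))] at hav
  obtain ⟨g, hg, hIg⟩ := hav
  have hgp : Prime g := hfs g (by simpa using hg)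
  -- lying over
  obtain ⟨P0, hIP0, hP0, hP0g⟩ : ∃ Q ≥ I, Q.IsPrime ∧ Q.comap ψ = Ideal.span {g} := by
    let _ : Algebra (MvPolynomial (Fin 3) k) (Bb k u) := ψ.toRingHom.toAlgebra
    have : (Ideal.span {g} : Ideal (MvPolynomial (Fin 3) k)).IsPrime := by
      rw [Ideal.span_singleton_prime hgp.ne_zero]
      exact hgp
    have : Algebra.IsIntegral (MvPolynomial (Fin 3) k) (Bb k u) := by
      refine ⟨fun b => ?_⟩
      obtain ⟨p, hp, hpb⟩ := b.2
      refine ⟨p, hp, ?_⟩
      apply Subtype.ext
      have h1 := Polynomial.hom_eval₂ p (algebraMap (MvPolynomial (Fin 3) k) (Bb k u))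
        ((Bb k u).val : Bb k u →+* F) b
      have h2 : ((Bb k u).val : Bb k u →+* F).comp
          (algebraMap (MvPolynomial (Fin 3) k) (Bb k u)) =
          ((aeval u : MvPolynomial (Fin 3) k →ₐ[k] F) : MvPolynomial (Fin 3) k →+* F) :=
        RingHom.ext fun q => hψ q
      rw [h2] at h1
      exact h1.trans hpb
    obtain ⟨Q, h1, h2, h3⟩ := Ideal.exists_ideal_over_prime_of_isIntegral
      (Ideal.span {g} : Ideal (MvPolynomial (Fin 3) k)) I hIg
    exact ⟨Q, h1, h2, h3⟩
  set P : Ideal (MvPolynomial σ k) := P0.comap χ with hPdef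
  have hPp : P.IsPrime := Ideal.comap_isPrime _ _
  have hPk : ∀ f, aeval X f = 0 → f ∈ P := by
    intro f hf
    have : χ f = 0 := Subtype.ext (by rw [hχ, hf]; rfl)
    rw [hPdef, Ideal.mem_comap, this]
    exact P0.zero_mem
  have hPI : ∀ f, Itg k u (aeval X f * z) → f ∈ P := by
    intro f hf
    rw [hPdef, Ideal.mem_comap]
    apply hIP0
    rw [hI, hχ]
    exact hf
  have hPG : G ∈ P := hPI G (by rw [hGz]; exact ha)
  choose U hU1 hU using hX.ulin
  -- linear forms in `u`
  have hlin : ∀ d : Fin 3 → k, (∑ l, C (d l) * U l : MvPolynomial σ k) ∈ P →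
      g ∣ ∑ l, C (d l) * MvPolynomial.X l := by
    intro d hd
    rw [← Ideal.mem_span_singleton, ← hP0g, Ideal.mem_comap]
    have : ψ (∑ l, C (d l) * MvPolynomial.X l) = χ (∑ l, C (d l) * U l) := by
      apply Subtype.ext
      rw [hψ, hχ, map_sum, map_sum]
      refine Finset.sum_congr rfl fun l _ => ?_
      rw [map_mul, map_mul, algHom_C, algHom_C, aeval_X, hU]
    rw [this]
    exact hd
  -- not all coordinates vanish
  have hXP : ∃ j : σ, (MvPolynomial.X j : MvPolynomial σ k) ∉ P := by
    by_contra hcon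
    push Not at hcon
    refine no_plane hgp 0 fun d _ => hlin d (P.sum_mem fun l _ => P.mul_mem_left _ ?_)
    rw [lin_form (hU1 l)]
    exact P.sum_mem fun s _ => P.mul_mem_left _ (hcon s)
  -- linear forms which vanish at a point
  have hpl : ∀ s : σ → k, s ≠ 0 → ∃ l : MvPolynomial σ k, l.IsHomogeneous 1 ∧ eval s l = 0 ∧
      l ∉ P := by
    intro s hs
    by_contra hcon
    push Not at hcon
    refine no_plane hgp (fun l => eval s (U l)) fun d hd => hlin d (hcon _ ?_ ?_)
    · refine IsHomogeneous.sum _ _ _ fun l _ => ?_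
      have := (isHomogeneous_C σ (d l)).mul (hU1 l)
      rwa [zero_add] at this
    · rw [map_sum]
      simpa using hd
  have hV : ∀ f : MvPolynomial σ k, (∀ s : σ → k, (∀ p ∈ P, eval s p = 0) → eval s f = 0) →
      f ∈ P := by
    intro f hf
    have h1 : f ∈ P.radical := by
      rw [← vanishingIdeal_zeroLocus_eq_radical (K := k), mem_vanishingIdeal_iff]
      intro s hs
      rw [aeval_eq_eval]
      refine hf s fun p hp => ?_
      rw [mem_zeroLocus_iff] at hs
      have := hs p hp
      rwa [aeval_eq_eval] at this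
    rwa [hPp.radical] at h1
  obtain ⟨jj, hjj⟩ := hXP
  -- there is a point
  have hpt : ∃ s : σ → k, s ≠ 0 ∧ ∀ p ∈ P, eval s p = 0 := by
    by_contra hcon
    push Not at hcon
    apply hjj
    refine hV _ fun s hs => ?_
    by_cases hs0 : s = 0
    · rw [hs0]; simp
    · obtain ⟨p, hp, hp0⟩ := hcon s hs0
      exact absurd (hs p hp) hp0
  -- a smooth point
  have hsm : ∃ s : σ → k, s ≠ 0 ∧ (∀ p ∈ P, eval s p = 0) ∧ SmP X G s := by
    by_contra hcon
    push Not at hcon
    have hnod : ∀ s : σ → k, s ≠ 0 → (∀ p ∈ P, eval s p = 0) → Nod X G s := by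
      intro s hs hsP
      rcases hN s hs (fun f hf => hsP f (hPk f hf)) (hsP G hPG) with h | h
      · exact absurd h (hcon s hs hsP)
      · exact h
    obtain ⟨r, hr⟩ : ∃ r, Fintype.card σ = r + 3 := ⟨Fintype.card σ - 3, by
      have := card_ge hS hX
      omega⟩
    have hmin := (hGMX k F σ X u dd (fun l s => coeff (Finsupp.single s 1) (U l)) r hr (by
      intro l
      rw [← hU l]
      nth_rw 1 [lin_form (hU1 l)]
      rw [map_sum]
      refine Finset.sum_congr rfl fun s _ => ?_
      rw [map_mul, algHom_C, aeval_X, Algebra.smul_def]) hS.du).1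
    have hJc : JcI X r G ≤ P := by
      refine Ideal.span_le.2 ?_
      rintro f ((hf | hf) | ⟨f', q, hf', rfl⟩)
      · exact hPk f hf
      · rw [Set.mem_singleton_iff] at hf
        rw [hf]
        exact hPG
      · have h1 : (MvPolynomial.X jj : MvPolynomial σ k) * Mnr G f' q ∈ P := by
          refine hV _ fun s hs => ?_
          by_cases hs0 : s = 0
          · rw [map_mul, hs0]; simp
          · rw [map_mul, (hNKD k F σ X r hr hmin hHR m G hG s hs0
              (fun f hf => hs f (hPk f hf)) (hs G hPG) (hnod s hs0 hs)).1 f' q hf', mul_zero]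
        exact (hPp.mem_or_mem h1).resolve_left hjj
    obtain ⟨s, hs, hsP⟩ := hpt
    obtain ⟨-, h, hh, hhJ⟩ := hNKD k F σ X r hr hmin hHR m G hG s hs
      (fun f hf => hsP f (hPk f hf)) (hsP G hPG) (hnod s hs hsP)
    obtain ⟨l, hl1, hl0, hlP⟩ := hpl s hs
    have h1 : h * l ∈ P := hJc (hhJ l fun t => by
      rw [lin_form hl1] at hl0 ⊢
      rw [map_sum] at hl0 ⊢
      simp only [map_mul, eval_C, eval_X, Pi.smul_apply, smul_eq_mul] at hl0 ⊢
      calc ∑ x, coeff (Finsupp.single x 1) l * (t * s x)
          = t * ∑ x, coeff (Finsupp.single x 1) l * s x := by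
            rw [Finset.mul_sum]
            exact Finset.sum_congr rfl fun x _ => by ring
        _ = 0 := by rw [hl0, mul_zero])
    rcases hPp.mem_or_mem h1 with h2 | h2
    · exact hh (hsP h h2)
    · exact hlP h2
  obtain ⟨s, hs, hsP, hsm⟩ := hsm
  have hC : Cone X s := hCHM k F σ X u dd J j0 (syd hS hX) s fun f hf => hsP f (hPk f hf)
  obtain ⟨q, hq, hqz⟩ := hRDA k F σ X u dd δ j0 c0 J hS hX m G hm hG hG0 s hs hC (hsP G hPG)
    (tng_le s hsm) P hPp hPk hPG hsP (hpl s hs) a t ha hat haG
  exact hq (hPI q hqz)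

end

end Pool.Agent.H78.S2
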