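import Pool.Agent.H84.S2.TgC
import Pool.Agent.H19.SFG.DMA

/-!
# Row B_DIC of the board s2l_modules: a form of small degree vanishes at all nodes, or there are
many separated nodes
-/

set_option autoImplicit false

namespace Pool.Agent.H78.S2

open MvPolynomial SC
open Pool.Agent.H84.SF
open Pool.Agent.H3.S2
open Pool.Agent.H84.S2

/-- points which are separated by the elements of a space of functions -/
theorem sep_points {k V P : Type} [Field k] [AddCommGroup V] [Module k V] [FiniteDimensional k V]
    (ev : P → Module.Dual k V) (N : Set P) (h : ∀ v : V, (∀ s ∈ N, ev s v = 0) → v = 0) :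
    ∃ T : Finset P, (↑T : Set P) ⊆ N ∧ T.card = Module.finrank k V ∧
      ∀ s ∈ T, ∃ v : V, ev s v = 1 ∧ ∀ t ∈ T, t ≠ s → ev t v = 0 := by
  classical
  have htop : Submodule.span k (ev '' N) = ⊤ := by
    have h1 : (Submodule.span k (ev '' N)).dualCoannihilator = ⊥ := by
      rw [eq_bot_iff]
      intro v hv
      rw [Submodule.mem_dualCoannihilator] at hv
      exact h v fun s hs => hv _ (Submodule.subset_span ⟨s, hs, rfl⟩)
    have h2 := Subspace.dualCoannihilator_dualAnnihilator_eq (W := Submodule.span k (ev '' N))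
    rw [← h2, h1, Submodule.dualAnnihilator_bot]
  obtain ⟨b, hb, hsp, hli⟩ := exists_linearIndependent k (ev '' N)
  rw [htop] at hsp
  have hfin : b.Finite := hli.setFinite
  have : Fintype b := hfin.fintype
  let B : Module.Basis b k (Module.Dual k V) := Module.Basis.mk hli (by
    rw [Subtype.range_coe, hsp])
  have hB : ∀ β : b, B β = (β : Module.Dual k V) := fun β => by
    rw [Module.Basis.mk_apply]
  have hch : ∀ β : b, ∃ s ∈ N, ev s = (β : Module.Dual k V) := fun β => hb β.2
  choose p hpN hp using hch
  have hpi : Function.Injective p := by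
    intro β β' hββ
    apply Subtype.ext
    rw [← hp, ← hp, hββ]
  refine ⟨Finset.univ.image p, ?_, ?_, ?_⟩
  · intro s hs
    obtain ⟨β, -, rfl⟩ := Finset.mem_image.1 (Finset.mem_coe.1 hs)
    exact hpN β
  · rw [Finset.card_image_of_injective _ hpi, Finset.card_univ, ← Module.finrank_eq_card_basis B,
      Subspace.dual_finrank_eq]
  · intro s hs
    obtain ⟨β, -, rfl⟩ := Finset.mem_image.1 hs
    refine ⟨(Module.evalEquiv k V).symm (B.coord β), ?_, ?_⟩
    · rw [Module.apply_evalEquiv_symm_apply, hp, ← hB, Module.Basis.coord_apply,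
        Module.Basis.repr_self, Finsupp.single_eq_same]
    · intro t ht hne
      obtain ⟨γ, -, rfl⟩ := Finset.mem_image.1 ht
      rw [Module.apply_evalEquiv_symm_apply, hp, ← hB, Module.Basis.coord_apply,
        Module.Basis.repr_self, Finsupp.single_apply, if_neg]
      rintro rfl
      exact hne rfl

theorem pf_DIC : T_DIC := by
  classical
  intro k F σ _ _ _ _ _ _ _ X c GP r
  set N : Set (σ → k) := {s | s ≠ 0 ∧ Cone X s ∧ eval s GP = 0 ∧ Nod X GP s} with hN
  let ev : (σ → k) → Module.Dual k (homogeneousSubmodule (Fin 3) k r) := fun s =>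
    (aeval (fun l => ∑ i, c l i * s i) : MvPolynomial (Fin 3) k →ₐ[k] k).toLinearMap.comp
      (Submodule.subtype _)
  have hev : ∀ s q, ev s q = eval (fun l => ∑ i, c l i * s i) (q : MvPolynomial (Fin 3) k) := by
    intro s q
    change aeval (fun l => ∑ i, c l i * s i) (q : MvPolynomial (Fin 3) k) = _
    rw [aeval_eq_eval]
  by_cases h : ∀ v : homogeneousSubmodule (Fin 3) k r, (∀ s ∈ N, ev s v = 0) → v = 0
  · right
    have : FiniteDimensional k (homogeneousSubmodule (Fin 3) k r) := by
      apply Module.finite_of_finrank_pos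
      rw [Pool.Agent.H19.SFG.finrank_hom3]
      exact Nat.choose_pos (by omega)
    obtain ⟨T, hT, hc, hs⟩ := sep_points ev N h
    refine ⟨T, ⟨fun s hs => hT hs, ?_⟩, ?_⟩
    · intro s hsT
      obtain ⟨v, hv1, hv0⟩ := hs s hsT
      have hval : ∀ t : σ → k, eval t (aeval (fun l => ∑ i, C (c l i) * MvPolynomial.X i :
          Fin 3 → MvPolynomial σ k) (v : MvPolynomial (Fin 3) k)) = ev t v := by
        intro t
        rw [hev]
        have h1 : ((eval t).comp (aeval (fun l => ∑ i, C (c l i) * MvPolynomial.X i :
            Fin 3 → MvPolynomial σ k)).toRingHom) = eval (fun l => ∑ i, c l i * t i) := by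
          apply MvPolynomial.ringHom_ext
          · intro a
            simp
          · intro l
            simp
        exact DFunLike.congr_fun h1 _
      refine ⟨aeval (fun l => ∑ i, C (c l i) * MvPolynomial.X i) (v : MvPolynomial (Fin 3) k),
        ?_, ?_, ?_⟩
      · have hv : (v : MvPolynomial (Fin 3) k).IsHomogeneous r :=
          (mem_homogeneousSubmodule _ _).1 v.2
        have h2 := hv.aeval (fun l => ∑ i, C (c l i) * MvPolynomial.X i : Fin 3 → MvPolynomial σ k)
          (n := 1) (fun l => IsHomogeneous.sum _ _ _ fun i _ => isHomogeneous_C_mul_X _ _)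
        rwa [one_mul] at h2
      · rw [hval, hv1]
        exact one_ne_zero
      · intro t ht hts
        rw [hval]
        exact hv0 t ht hts
    · rw [hc, Pool.Agent.H19.SFG.finrank_hom3]
  · left
    push Not at h
    obtain ⟨v, hv, hv0⟩ := h
    refine ⟨v, (mem_homogeneousSubmodule _ _).1 v.2, fun h => hv0 (Subtype.ext h), ?_⟩
    intro s hs1 hs2 hs3 hs4
    rw [← hev]
    exact hv s ⟨hs1, hs2, hs3, hs4⟩

end Pool.Agent.H78.S2
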