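import Pool.Agent.H84.S2.TgE
import Pool.Agent.H52.S2.GNN

/-!
# MP_70ba79_ag, board s2l_modules: row E_GNNR, families of curves through a node, with a factor `R`
(copy of helper52's row B_GNN)
-/

set_option autoImplicit false

namespace Pool.Agent.H78.S2

open MvPolynomial SC
open Pool.Agent.H27.LV (ge deg poleOrder canDeg)
open Pool.Agent.H84.SM (cr dt dp)
open Pool.Agent.H84.SL (pd)
open Pool.Agent.H92.SF (Q2)
open Pool.Agent.H3.SF (Itg Bb BB Hm eu grd hes Sfc Crd Cnn Crf Prm nv Vl VQ evc FE E)
open Pool.Agent.H84.SF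
open Pool.Agent.H3.S2
open Pool.Agent.H84.S2
open Pool.Agent.H52.S2

attribute [-instance] HahnSeries.powerSeriesAlgebra

theorem pf_GNNR (hLDT : T_LDT) (hHMK : T_HMK) : T_GNNR := by
  intro k F σ _ _ _ _ _ _ _ X u dd J j0 c hS hu m GP hm hN s hs hc hGs L M _ _ _ _ _ _ Δ P R a
    hR hP hPG μ hμ hP0
  obtain ⟨L0, ε, p, r, cc, Gs, hL0, hL0s, hp, hGsF, hε, ⟨w, hw⟩, hder, -⟩ :=
    hLDT k F σ X u dd J j0 hS m GP hm hN s hs hc hGs
  have hz : ∀ f : MvPolynomial σ k, aeval (fun i => Ph k L M (P i)) f =
      Ph k L M (aeval P f) := fun f => (comp_aeval_apply (f := P) (Ph k L M) f).symm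
  -- the value of a form at `T = 0`
  have hev : ∀ f : MvPolynomial σ k, (aeval P f).coeff 0 =
      aeval (fun i => μ * algebraMap k L (s i)) f := by
    intro f
    have h1 := comp_aeval_apply (f := P) ((Polynomial.aeval (0 : L)).restrictScalars k) f
    have h2 : ∀ q : Polynomial L, ((Polynomial.aeval (0 : L)).restrictScalars k) q =
        q.coeff 0 := by
      intro q
      change Polynomial.aeval (0 : L) q = q.coeff 0
      rw [Polynomial.coe_aeval_eq_eval, Polynomial.coeff_zero_eq_eval_zero]
    rw [h2] at h1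
    rw [h1]
    congr 2
    funext i
    rw [h2, hP0]
  have hμM : algebraMap L M μ ≠ 0 := fun h => hμ ((algebraMap L M).injective (by
    rw [h, map_zero]))
  -- the homomorphism
  obtain ⟨y, hy1, hy2, hy3⟩ := hHMK k F σ (HahnSeries ℤ M) X s hc (fun i => Ph k L M (P i))
    (fun f hf => by rw [hz, hP f hf, map_zero]) (vL k M)
    (io M (Polynomial.C (algebraMap L M μ)⁻¹)) (by
      intro h
      have h1 : (io M (Polynomial.C (algebraMap L M μ)⁻¹)).coeff ((0 : ℕ) : ℤ) = 0 := by
        rw [h, HahnSeries.coeff_zero]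
      rw [io_coeff, Polynomial.coeff_C_zero] at h1
      exact inv_ne_zero hμM h1) (by
      intro i
      rw [← io_C, Ph_apply, ← map_mul, ← map_sub]
      have h1 := (io_ge (k := k) (Polynomial.C (algebraMap L M μ)⁻¹ *
        (P i).map (algebraMap L M) - Polynomial.C (algebraMap k M (s i))) 1).2 (by
          rw [pow_one, Polynomial.X_dvd_iff, Polynomial.coeff_sub, Polynomial.coeff_C_mul,
            Polynomial.coeff_map, hP0, Polynomial.coeff_C_zero, map_mul,
            ← IsScalarTower.algebraMap_apply k L M, inv_mul_cancel_left₀ hμM, sub_self])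
      exact_mod_cast h1)
  have hy3' := hy3 ε hε
  -- the linear form `L0`
  have hΛ : ((aeval P L0).map (algebraMap L M)).coeff 0 ≠ 0 := by
    rw [Polynomial.coeff_map, hev, aeval_smul_hom L0 1 hL0, pow_one]
    intro h
    have h1 : μ * aeval (fun i => algebraMap k L (s i)) L0 = 0 := (algebraMap L M).injective (by
      rw [h, map_zero])
    rcases mul_eq_zero.1 h1 with h2 | h2
    · exact hμ h2
    · have h3 : aeval (fun i => algebraMap k L (s i)) L0 = algebraMap k L (eval s L0) := by
        have h4 := comp_aeval_apply (f := s) (Algebra.ofId k L) L0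
        rw [Algebra.ofId_apply] at h4
        rw [← coe_aeval_eq_eval, RingHom.coe_coe, h4]
        rfl
      rw [h3] at h2
      exact hL0s ((algebraMap k L).injective (by rw [h2, map_zero]))
  generalize hΛd : (aeval P L0).map (algebraMap L M) = q0 at hΛ
  have hΛ1 : aeval (fun i => Ph k L M (P i)) L0 = io M q0 := by
    rw [hz, Ph_apply, hΛd]
  -- `G` at the curve
  have hG1 : y Gs * io M q0 ^ m =
      io M (R.map (algebraMap L M) * Polynomial.X ^ a) := by
    have h1 := hy1 Gs m GP (L0 ^ m) ⟨hN.hom, by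
      have h2 := hL0.pow m
      rw [one_mul] at h2
      exact h2, by
      rw [map_pow]
      exact hGsF⟩
    rw [map_pow, hΛ1, hz, hPG, Ph_apply, Polynomial.map_mul,
      Polynomial.map_pow, Polynomial.map_X] at h1
    exact h1
  have hG0 : y Gs ≠ 0 := by
    intro h
    rw [h, zero_mul] at hG1
    have h1 : (io M (R.map (algebraMap L M) * Polynomial.X ^ a)).coeff (a : ℤ) = 0 := by
      rw [← hG1, HahnSeries.coeff_zero]
    have h2 := Polynomial.coeff_mul_X_pow (R.map (algebraMap L M)) a 0
    rw [zero_add, Polynomial.coeff_map] at h2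
    rw [io_coeff, h2] at h1
    exact hR ((algebraMap L M).injective (by rw [h1, map_zero]))
  -- the coordinates
  have hlin : ∀ l, Ph k L M (lin c P l) = io M q0 * y (p l) := by
    intro l
    let U : MvPolynomial σ k := ∑ i, c l i • MvPolynomial.X i
    have hU : U.IsHomogeneous 1 := by
      apply IsHomogeneous.sum
      intro i _
      rw [smul_eq_C_mul]
      have := (isHomogeneous_X k i).C_mul (c l i)
      exact this
    have hUX : aeval X U = u l := by
      simp only [U, map_sum, map_smul, aeval_X]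
      exact (hu l).symm
    have hUP : aeval P U = lin c P l := by
      simp only [U, map_sum, map_smul, aeval_X]
      rfl
    have h1 := hy1 (p l) 1 U L0 ⟨hU, hL0, by rw [hp l, hUX]⟩
    rw [hΛ1, hz, hUP] at h1
    rw [← h1, mul_comm]
  -- derivations
  obtain ⟨a1, b1, ha1, hb1, h1⟩ := hder (HahnSeries ℤ M) y (vL k M) hy2 hy3' hG0 (D1 k M) 0
    (cwD_ge _ _)
  obtain ⟨a2, b2, ha2, hb2, h2⟩ := hder (HahnSeries ℤ M) y (vL k M) hy2 hy3' hG0 (D2 Δ) 0
    (cwD_ge _ _)
  have e1 : ∀ l, io M (Polynomial.X * (Polynomial.derivative (lin c P l)).map (algebraMap L M)) =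
      D1 k M (io M q0) * y (p l) + io M q0 * (a1 * y (r l) + b1 * y (cc l)) := by
    intro l
    rw [← Polynomial.derivative_map, ← D1_io (k := k), ← Ph_apply (k := k), hlin l,
      Derivation.leibniz, smul_eq_mul, smul_eq_mul, h1 l]
    ring
  have e2 : ∀ l, io M (pd (fun b => Δ (algebraMap L M b)) (lin c P l)) =
      D2 Δ (io M q0) * y (p l) + io M q0 * (a2 * y (r l) + b2 * y (cc l)) := by
    intro l
    rw [← D2_io, ← Ph_apply (k := k), hlin l, Derivation.leibniz, smul_eq_mul, smul_eq_mul, h2 l]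
    ring
  generalize hdet : dt (fun i => (lin c P i).map (algebraMap L M))
      (fun i => pd (fun b => Δ (algebraMap L M b)) (lin c P i))
      (fun i => Polynomial.X * (Polynomial.derivative (lin c P i)).map (algebraMap L M)) = Dt
  have e3 : io M Dt = io M q0 ^ 3 * (a2 * b1 - b2 * a1) * (y Gs * y w) := by
    rw [← hdet, dt_map]
    simp only [e1, e2]
    have e4 : ∀ i, io M ((lin c P i).map (algebraMap L M)) = io M q0 * y (p i) := fun i => hlin i
    simp only [e4]
    rw [dt_log, ← map_mul, ← hw]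
    congr 1
    exact (dt_map (y : Os X s →+* HahnSeries ℤ M) p r cc).symm
  have e5 : io M (Dt * q0 ^ m) = io M (q0 ^ 3) * (a2 * b1 - b2 * a1) *
      (io M (R.map (algebraMap L M) * Polynomial.X ^ a) * y w) := by
    rw [map_mul, map_pow, map_pow, e3, ← hG1]
    ring
  have e6 : ge (vL k M) a (io M (Dt * q0 ^ m)) := by
    rw [e5]
    have f1 : ge (vL k M) 0 (a2 * b1 - b2 * a1) := by
      have g1 := ge_mulL ha2 hb1
      have g2 := ge_mulL hb2 ha1
      rw [add_zero] at g1 g2
      exact ge_subL g1 g2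
    have f2 := ge_mulL (io_ge0 (k := k) (q0 ^ 3)) f1
    have f3 : ge (vL k M) a (io M (R.map (algebraMap L M) * Polynomial.X ^ a)) :=
      (io_ge _ _).2 (Dvd.intro_left _ rfl)
    have f4 := ge_mulL f2 (ge_mulL f3 (hy2 w))
    rw [add_zero, add_zero, zero_add] at f4
    exact f4
  rw [io_ge] at e6
  have h0 : ¬ Polynomial.X ∣ q0 ^ m := fun h => by
    have := Polynomial.prime_X.dvd_of_dvd_pow h
    rw [Polynomial.X_dvd_iff] at this
    exact hΛ this
  exact Polynomial.prime_X.pow_dvd_of_dvd_mul_right a h0 e6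

end Pool.Agent.H78.S2
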